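import Pool.Agent.Helper1.TE.Goals3

/-! Project TE (MP_8b4d68_lc), packet TE-XPR. -/

set_option autoImplicit false

namespace Pool.Agent.Helper84.TE

open Pool.Agent.Helper1.TE
open Pool.Agent.Helper65.LinSpace (Dir inputSym inputMove Prog Run cons Ctx LS)

theorem gXPR : GoalXPR := by
  intro w B p s s' n h
  induction h with
  | skip s => exact XRun.skip _
  | inc i s h => exact XRun.inc i s n h
  | seq h₁ h₂ ih₁ ih₂ => exact XRun.seq ih₁ ih₂
  | loop_zero h => exact XRun.loop_zero h
  | loop_succ h h₁ h₂ ih₁ ih₂ => exact XRun.loop_succ h ih₁ ih₂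

end Pool.Agent.Helper84.TE
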